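import Pool.Agent.Lib_MP_fed070_lc_ins.Core

set_option autoImplicit false

/-!
MP_fed070_lc, Q1, positive answer, in the words of the problem file and with more information:
every computably bounded `Π⁰₁` class `P` represents the prime spectrum of a computable commutative
ring, which can be taken to be a ring in which any two elements are comparable for divisibility,
the bijection reverses the lexicographic order of `P`, and both directions are computed uniformly.
-/

namespace Pool.Agent.Results.MP_fed070_lc.LexSpectrum

open Pool.Agent.LibFed070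

/-- The initial segment of length `n` of `f`. -/
def initial (f : ℕ → ℕ) (n : ℕ) : List ℕ := (List.range n).map f

/-- `P` is a computably bounded `Π⁰₁` class: the set of the infinite paths of a computable tree
`T` (a computable set of finite strings which is closed under initial segments) such that some
computable function `g` satisfies `i < g σ` whenever `σ ++ [i]` is in `T`. -/
def IsCBClass (P : Set (ℕ → ℕ)) : Prop :=
  ∃ (T : Set (List ℕ)) (g : List ℕ → ℕ), ComputablePred (fun σ => σ ∈ T) ∧ Computable g ∧
    (∀ σ ∈ T, ∀ τ, τ <+: σ → τ ∈ T) ∧ (∀ σ i, σ ++ [i] ∈ T → i < g σ) ∧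
    P = {f | ∀ n, initial f n ∈ T}

/-- A computable presentation of the commutative ring `R`: an injective coding of its elements by
natural numbers with a computable set of codes, under which addition, multiplication and negation
are computable. -/
structure Presentation (R : Type) [CommRing R] where
  /-- the code of an element -/
  code : R → ℕ
  injective : Function.Injective code
  range : ComputablePred (fun n => n ∈ Set.range code)
  add : ∃ a : ℕ → ℕ → ℕ, Computable₂ a ∧ ∀ x y, a (code x) (code y) = code (x + y)
  mul : ∃ m : ℕ → ℕ → ℕ, Computable₂ m ∧ ∀ x y, m (code x) (code y) = code (x * y)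
  neg : ∃ m : ℕ → ℕ, Computable m ∧ ∀ x, m (code x) = code (-x)

/-- The characteristic function of a prime ideal: the value at `n` is `1` if `n` is the code of an
element of the ideal, and `0` otherwise. -/
noncomputable def Presentation.charFun {R : Type} [CommRing R] (c : Presentation R)
    (𝔭 : PrimeSpectrum R) : ℕ → ℕ :=
  (c.code '' (𝔭.asIdeal : Set R)).indicator (fun _ => 1)

theorem computablePred_of {p : ℕ → Prop} (u : ℕ → Bool) (hu : Computable u)
    (h : ∀ n, u n = true ↔ p n) : ComputablePred p := by
  have h1 : ComputablePred (fun n => (u n : Prop)) :=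
    ⟨fun _ => inferInstance, by simpa using hu⟩
  exact h1.of_eq h

theorem result (P : Set (ℕ → ℕ)) (hP : IsCBClass P) :
    ∃ (R : Type) (_ : CommRing R) (c : Presentation R) (F : P ≃ PrimeSpectrum R),
      (∀ f : P, TuringEquivalent (PFun.lift f.1) (PFun.lift (c.charFun (F f)))) ∧
      (∀ f f' : P, F f < F f' ↔ ∃ n, (∀ m < n, f.1 m = f'.1 m) ∧ f'.1 n < f.1 n) ∧
      (∀ x y : R, x ∣ y ∨ y ∣ x) ∧
      ∃ (M N : ℕ → ℕ) (Φ Ψ : ℕ → List ℕ → ℕ),
        Computable M ∧ Computable N ∧ Computable₂ Φ ∧ Computable₂ Ψ ∧
        ∀ (f : P) (n : ℕ), c.charFun (F f) n = Φ n (initial f.1 (M n)) ∧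
          f.1 n = Ψ n (initial (c.charFun (F f)) (N n)) := by
  classical
  obtain ⟨T₀, g, hT₀, hgc, hcl, hb, rfl⟩ := hP
  set T : List ℕ → Bool := fun σ => decide (σ ∈ T₀) with hTdef
  have hTc : Computable T := by
    obtain ⟨hd, hc⟩ := hT₀
    refine hc.of_eq (fun σ => ?_)
    simp only [hTdef]
    congr 1
  have hmemT : ∀ σ, T σ = true ↔ σ ∈ T₀ := fun σ => by simp [hTdef]
  by_cases hne : {f : ℕ → ℕ | ∀ n, initial f n ∈ T₀}.Nonempty
  · obtain ⟨f0, hf0⟩ := hne
    have hPaths : Paths T = {f : ℕ → ℕ | ∀ n, initial f n ∈ T₀} := by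
      ext f
      change (∀ n, T ((List.range n).map f) = true) ↔ ∀ n, initial f n ∈ T₀
      exact forall_congr' fun n => hmemT _
    have hT : TreeHyp T g := by
      refine ⟨(hmemT _).2 (hf0 0), ?_, ?_⟩
      · intro σ τ h1 h2
        exact (hmemT _).2 (hcl τ ((hmemT _).1 h2) σ h1)
      · intro σ i h
        exact hb σ i ((hmemT _).1 h)
    rw [← hPaths] at hf0 ⊢
    have hdom : Dom T g rt ut :=
      (isCut_cutOf hT f0 hf0).dom rt (isCut_cutOf hT f0 hf0).rt_mem ut
        (isCut_cutOf hT f0 hf0).ut_not_mem
    have heqC := computable_eqC hTc hgc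
    have heq := eqC_iff T g hdom
    let c : Presentation (RR T g) :=
      { code := rep (nu T g) (nu_surj T g)
        injective := fun x y h => rep_inj (nu T g) (nu_surj T g) h
        range := by
          refine computablePred_of (univ (nu T g) (nu_surj T g))
            (computable_univ _ _ heqC heq) (fun n => ?_)
          constructor
          · intro h
            exact ⟨nu T g n, (univ_iff _ _ n).1 h⟩
          · rintro ⟨x, rfl⟩
            exact univ_rep _ _ x
        add := ⟨_, computable_add (nu T g) (nu_surj T g) (computable_addC hTc hgc) (nu_add T g)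
            heqC heq, fun x y => by simp only [ν_rep (nu T g) (nu_surj T g)]⟩
        mul := ⟨_, computable_mul (nu T g) (nu_surj T g) (computable_mulC hTc hgc) (nu_mul T g)
            heqC heq, fun x y => by simp only [ν_rep (nu T g) (nu_surj T g)]⟩
        neg := ⟨_, computable_neg (nu T g) (nu_surj T g) (negC := fun a => a) Computable.id
            (nu_neg T g) heqC heq, fun x => by simp only [ν_rep (nu T g) (nu_surj T g)]⟩ }
    let F : Paths T ≃ PrimeSpectrum (RR T g) := Equiv.ofBijective _ (primeOf_bijective hT)
    have hF : ∀ f : Paths T, F f = primeOf T g f.1 (isCut_cutOf hT f.1 f.2) := fun f => rfl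
    have hchar : ∀ f : Paths T, c.charFun (F f) = chf T g f.1 := by
      intro f
      rw [chf_eq_chi T g f.1 (isCut_cutOf hT f.1 f.2)]
      funext n
      have h1 := chi_eq_one (nu T g) (nu_surj T g) (F f).asIdeal n
      change (rep (nu T g) (nu_surj T g) '' ((F f).asIdeal : Set (RR T g))).indicator
        (fun _ => 1) n = chi (nu T g) (nu_surj T g) (F f).asIdeal n
      by_cases hn : n ∈ rep (nu T g) (nu_surj T g) '' ((F f).asIdeal : Set (RR T g))
      · rw [Set.indicator_of_mem hn]
        obtain ⟨x, hx, rfl⟩ := hn
        symm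
        rw [h1]
        exact ⟨univ_rep _ _ x, by rw [ν_rep (nu T g) (nu_surj T g)]; exact hx⟩
      · rw [Set.indicator_of_notMem hn]
        rcases chi_zero_or_one (nu T g) (nu_surj T g) (F f).asIdeal n with h | h
        · exact h.symm
        · exfalso
          rw [h1] at h
          exact hn ⟨nu T g n, h.2, (univ_iff _ _ n).1 h.1⟩
    have hlt : ∀ f f' : Paths T, (∃ n, (∀ m < n, f.1 m = f'.1 m) ∧ f'.1 n < f.1 n) →
        F f < F f' := by
      rintro f f' ⟨n, h1, h2⟩
      have h3 := cutOf_ssubset hT f'.1 f.1 f'.2 f.2 n (fun m hm => (h1 m hm).symm) h2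
      exact primeOf_lt T g (isCut_cutOf hT f'.1 f'.2) (isCut_cutOf hT f.1 f.2) h3
    refine ⟨RR T g, inferInstance, c, F, ?_, ?_, dvd_total_RR T g, ?_⟩
    · intro f
      rw [hchar]
      exact ⟨path_reducible hTc hgc hT hdom f.1 f.2, chf_reducible hTc hgc hT hdom f.1 f.2⟩
    · intro f f'
      refine ⟨fun h => ?_, hlt f f'⟩
      have hne' : f.1 ≠ f'.1 := by
        intro h0
        have : f = f' := Subtype.ext h0
        rw [this] at h
        exact lt_irrefl _ h
      have hex : ∃ n, f.1 n ≠ f'.1 n := Function.ne_iff.1 hne'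
      have h1 := Nat.find_spec hex
      have h2 : ∀ m < Nat.find hex, f.1 m = f'.1 m := fun m hm => not_not.1 (Nat.find_min hex hm)
      rcases lt_or_gt_of_ne h1 with h3 | h3
      · have h4 := hlt f' f ⟨Nat.find hex, fun m hm => (h2 m hm).symm, h3⟩
        exact absurd h (lt_asymm h4)
      · exact ⟨Nat.find hex, h2, h3⟩
    · refine ⟨useP, useF T g, funP T g, funF T g, computable_useP, computable_useF hTc hgc hdom,
        computable_funP hTc hgc hdom, computable_funF hTc hgc hdom, ?_⟩
      intro f n
      rw [hchar]
      exact ⟨chf_eq_funP hT f.1 f.2 n, path_eq_funF hT f.1 f.2 n⟩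
  · rw [Set.not_nonempty_iff_eq_empty] at hne
    rw [hne]
    have hempty : IsEmpty (PrimeSpectrum PUnit) := by
      constructor
      intro 𝔭
      exact 𝔭.isPrime.ne_top ((Ideal.eq_top_iff_one _).2 (by
        have : (1 : PUnit) = 0 := rfl
        rw [this]; exact 𝔭.asIdeal.zero_mem))
    let c : Presentation PUnit :=
      { code := fun _ => 0
        injective := fun _ _ _ => rfl
        range := by
          refine computablePred_of (fun n => decide (n = 0))
            ((Primrec.eq (α := ℕ)).decide.comp Primrec.id (Primrec.const 0)).to_comp (fun n => ?_)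
          simp [eq_comm]
        add := ⟨fun _ _ => 0, Computable.const 0, fun _ _ => rfl⟩
        mul := ⟨fun _ _ => 0, Computable.const 0, fun _ _ => rfl⟩
        neg := ⟨fun _ => 0, Computable.const 0, fun _ => rfl⟩ }
    refine ⟨PUnit, inferInstance, c, Equiv.equivOfIsEmpty _ _, fun f => f.2.elim,
      fun f => f.2.elim, fun x y => Or.inl (by rw [Subsingleton.elim y 0]),
      fun _ => 0, fun _ => 0, fun _ _ => 0, fun _ _ => 0, Computable.const 0, Computable.const 0,
      Computable.const 0, Computable.const 0, fun f => f.2.elim⟩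

end Pool.Agent.Results.MP_fed070_lc.LexSpectrum
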